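import Pool.Agent.helper10.FL.SpecV

/-!
# Row fl:SQX2 (helper95): the first selection, sequences
-/

set_option autoImplicit false

open Complex Metric Set Filter Topology MeasureTheory
open STA

noncomputable section

namespace FL

theorem SQX2 (hNPI : NPI_stmt) (hSEL : SEL2_stmt) (hP : PVF_stmt) : SQX2_stmt := by
  intro Y₀ J U y r e s a m he hs0 hs hI
  have h1 : ∀ j, ∃ p : ℕ × ℕ, (y j ∈ J ∧ NPP (PVs (y j) (r j) Y₀) (1 / 10 ^ 4) e s 0 (a j) (m j)) →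
      SLD (PVs (y j) (r j) Y₀) s (a j) (m j) p.1 p.2 ∧ 4 ^ p.1 * ‖T (PVs (y j) (r j) Y₀) p.2 0‖ ≤ ‖T (PVs (y j) (r j) Y₀) (a j) 0‖ ∧
      (p.2 ≤ a j ∨ ∃ n' < p.2, RT (PVs (y j) (r j) Y₀) (rr p.1) n' ∧ 2 ^ p.1 * ‖T (PVs (y j) (r j) Y₀) n' 0‖ ≤ 2 * s) := by
    intro j
    by_cases hc : y j ∈ J ∧ NPP (PVs (y j) (r j) Y₀) (1 / 10 ^ 4) e s 0 (a j) (m j)
    · obtain ⟨-, -, hok, hjx⟩ := hP Y₀ (y j) (r j) (hI.r0 j)
      obtain ⟨i, n, hs, h4, h5⟩ := hSEL (PVs (y j) (r j) Y₀) (1 / 10 ^ 4) e s 0 (a j) (m j) (hok hI.ok) hc.2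
        (hjx J {0} hI.jx (fun w hw => by rw [mem_singleton_iff.1 hw, mul_zero, add_zero]; exact hc.1))
      exact ⟨(i, n), fun _ => ⟨hs, h4, h5⟩⟩
    · exact ⟨(0, 0), fun h => absurd h hc⟩
  choose p hp using h1
  have hnp : ∀ᶠ j in (U : Filter ℕ), NPP (PVs (y j) (r j) Y₀) (1 / 10 ^ 4) e s 0 (a j) (m j) := by
    filter_upwards [hI.oi s hs0] with j hj
    obtain ⟨-, -, hok, -⟩ := hP Y₀ (y j) (r j) (hI.r0 j)
    exact hNPI _ e s (a j) (m j) (hok hI.ok) hI.e0 he hs hj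
  have hcond : ∀ᶠ j in (U : Filter ℕ), SLD (PVs (y j) (r j) Y₀) s (a j) (m j) (p j).1 (p j).2 ∧ 4 ^ (p j).1 * ‖T (PVs (y j) (r j) Y₀) (p j).2 0‖ ≤ ‖T (PVs (y j) (r j) Y₀) (a j) 0‖ ∧
      ((p j).2 ≤ a j ∨ ∃ n' < (p j).2, RT (PVs (y j) (r j) Y₀) (rr (p j).1) n' ∧ 2 ^ (p j).1 * ‖T (PVs (y j) (r j) Y₀) n' 0‖ ≤ 2 * s) := by
    filter_upwards [hI.yj, hnp] with j h1 h2
    exact hp j ⟨h1, h2⟩
  refine ⟨fun j => (p j).1, fun j => (p j).2, ?_⟩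
  intro ζ hζ
  refine ⟨⟨hI.le, hI.ok, hI.r0, hnp, hcond.mono fun j hj => hj.1, ?_, hζ⟩, hI.oi, ?_, hcond.mono fun j hj => hj.2.2, hcond.mono fun j hj => hj.2.1⟩
  · rw [Metric.tendsto_nhds]
    intro δ hδ
    filter_upwards [hcond, hI.oi (δ / 2) (by linarith)] with j hj hj2
    have e1 := hj2.sa
    have e2 : (2 : ℝ) ^ (p j).1 ≤ 4 ^ (p j).1 := pow_le_pow_left₀ (by norm_num) (by norm_num) _
    have e3 : (2 : ℝ) ^ (p j).1 * ‖T (PVs (y j) (r j) Y₀) (p j).2 0‖ ≤ 4 ^ (p j).1 * ‖T (PVs (y j) (r j) Y₀) (p j).2 0‖ := mul_le_mul_of_nonneg_right e2 (norm_nonneg _)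
    rw [dist_zero_right, Real.norm_eq_abs, abs_of_nonneg (by positivity)]
    linarith [hj.2.1]
  · filter_upwards [hI.yj] with j hj
    obtain ⟨-, -, -, hjx⟩ := hP Y₀ (y j) (r j) (hI.r0 j)
    exact hjx J {0} hI.jx (fun w hw => by rw [mem_singleton_iff.1 hw, mul_zero, add_zero]; exact hj)

end FL
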